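import Pool.Agent.Work.MP_65e34f.Basic

/-!
# MP_65e34f_al, block BOB : counting in a Borel subgroup
-/

namespace Pool.FG.helper63

open Matrix Pool.FG

section
variable {K : Type} [Field K]

/-- the eigenvalue relation -/
lemma bob_eig (x : SL K) (v : Fin 2 → K) (hv : v ≠ 0) (c : K) (h : (x : M2 K).mulVec v = c • v) :
    c ^ 2 - tr x * c + 1 = 0 := by
  have h1 : ((x : M2 K) * (x : M2 K)).mulVec v = (c * c) • v := by
    rw [← Matrix.mulVec_mulVec, h, Matrix.mulVec_smul, h, smul_smul]
  rw [mul_self_eq, Matrix.sub_mulVec, Matrix.one_mulVec, Matrix.smul_mulVec, h, smul_smul] at h1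
  obtain ⟨i, hi⟩ : ∃ i, v i ≠ 0 := by
    by_contra hcon
    push Not at hcon
    exact hv (funext hcon)
  have h2 := congrFun h1 i
  simp only [Pi.sub_apply, Pi.smul_apply, smul_eq_mul] at h2
  have h3 : (c ^ 2 - tr x * c + 1) * v i = 0 := by linear_combination -h2
  rcases mul_eq_zero.mp h3 with h4 | h4
  · exact h4
  · exact absurd h4 hi

lemma bob_ne (x : SL K) (v : Fin 2 → K) (hv : v ≠ 0) (c : K) (h : (x : M2 K).mulVec v = c • v) :
    c ≠ 0 := by
  rintro rfl
  have := bob_eig x v hv 0 h
  simp at this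

lemma bob_ext {x y : SL K} (h00 : x.1 0 0 = y.1 0 0) (h01 : x.1 0 1 = y.1 0 1)
    (h10 : x.1 1 0 = y.1 1 0) (h11 : x.1 1 1 = y.1 1 1) : x = y := by
  apply Subtype.ext
  ext i j
  fin_cases i <;> fin_cases j <;> assumption

open Classical in
/-- the coordinate -/
noncomputable def bc (v : Fin 2 → K) (x : SL K) : K := if v 0 = 0 then x.1 1 0 else x.1 0 1

lemma bob_inj (v : Fin 2 → K) (hv : v ≠ 0) (x y : SL K) (c : K)
    (hx : (x : M2 K).mulVec v = c • v) (hy : (y : M2 K).mulVec v = c • v)
    (h : bc v x = bc v y) : x = y := by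
  have hc := bob_ne x v hv c hx
  have htr : tr x = tr y := by
    have h1 := bob_eig x v hv c hx
    have h2 := bob_eig y v hv c hy
    have h3 : (tr x - tr y) * c = 0 := by linear_combination h2 - h1
    rcases mul_eq_zero.mp h3 with h4 | h4
    · exact sub_eq_zero.mp h4
    · exact absurd h4 hc
  unfold tr at htr
  have hx0 := congrFun hx 0
  have hx1 := congrFun hx 1
  have hy0 := congrFun hy 0
  have hy1 := congrFun hy 1
  simp only [Matrix.mulVec, dotProduct, Fin.sum_univ_two, Pi.smul_apply, smul_eq_mul] at hx0 hx1 hy0 hy1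
  by_cases h0 : v 0 = 0
  · have h1 : v 1 ≠ 0 := by
      intro h1
      apply hv
      funext i
      fin_cases i
      · exact h0
      · exact h1
    simp only [bc, h0, if_true] at h
    rw [h0] at hx0 hx1 hy0 hy1
    have e01 : x.1 0 1 = y.1 0 1 := by
      apply mul_right_cancel₀ h1
      linear_combination hx0 - hy0
    have e11 : x.1 1 1 = y.1 1 1 := by
      apply mul_right_cancel₀ h1
      linear_combination hx1 - hy1
    exact bob_ext (by linear_combination htr - e11) e01 h e11
  · simp only [bc, h0, if_false] at h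
    have e00 : x.1 0 0 = y.1 0 0 := by
      apply mul_right_cancel₀ h0
      linear_combination hx0 - hy0 - h * v 1
    have e11 : x.1 1 1 = y.1 1 1 := by linear_combination htr - e00
    have e10 : x.1 1 0 = y.1 1 0 := by
      apply mul_right_cancel₀ h0
      linear_combination hx1 - hy1 - e11 * v 1
    exact bob_ext e00 h e10 e11

open Classical in
/-- the eigenvalue -/
noncomputable def be (v : Fin 2 → K) (x : SL K) : K :=
  if h : ∃ c : K, (x : M2 K).mulVec v = c • v then h.choose else 0

lemma be_spec (v : Fin 2 → K) (hv : v ≠ 0) (x : SL K) (hx : x ∈ Bor v hv) :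
    (x : M2 K).mulVec v = be v x • v := by
  have h : ∃ c : K, (x : M2 K).mulVec v = c • v := hx
  rw [be, dif_pos h]
  exact h.choose_spec

lemma bob_pair_inj (v : Fin 2 → K) (hv : v ≠ 0) :
    Set.InjOn (fun x : SL K => (be v x, bc v x)) {x : SL K | x ∈ Bor v hv} := by
  intro x hx y hy h
  have h1 := (Prod.ext_iff.mp h).1
  have h2 := (Prod.ext_iff.mp h).2
  simp only at h1 h2
  have hy' := be_spec v hv y hy
  rw [← h1] at hy'
  exact bob_inj v hv x y _ (be_spec v hv x hx) hy' h2

/-- a monic quadratic has at most two roots -/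
lemma bob_roots (t : K) : Set.ncard {c : K | c ^ 2 - t * c + 1 = 0} ≤ 2 ∧
    {c : K | c ^ 2 - t * c + 1 = 0}.Finite := by
  by_cases h : ∃ c : K, c ^ 2 - t * c + 1 = 0
  · obtain ⟨c, hc⟩ := h
    have hsub : {c : K | c ^ 2 - t * c + 1 = 0} ⊆ {c, t - c} := by
      intro d hd
      have hd' : d ^ 2 - t * d + 1 = 0 := hd
      have h1 : (d - c) * (d - (t - c)) = 0 := by linear_combination hd' - hc
      rcases mul_eq_zero.mp h1 with h2 | h2
      · left; exact sub_eq_zero.mp h2
      · right; exact sub_eq_zero.mp h2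
    exact ⟨(Set.ncard_le_ncard hsub (Set.toFinite _)).trans ((Set.ncard_insert_le _ _).trans (by simp)),
      (Set.toFinite _).subset hsub⟩
  · have : {c : K | c ^ 2 - t * c + 1 = 0} = ∅ := by
      ext c
      simp only [Set.mem_ofPred_eq, Set.mem_empty_iff_false, iff_false]
      exact fun hc => h ⟨c, hc⟩
    rw [this]
    simp

end

/-- **BOB** -/
theorem stmt_BOB : Stmt_BOB := by
  intro K _ _ v hv
  refine ⟨?_, ?_, ?_⟩
  · have h1 : Set.ncard {x : SL K | x ∈ Bor v hv} ≤ Set.ncard (Set.univ : Set (K × K)) :=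
      Set.ncard_le_ncard_of_injOn (fun x : SL K => (be v x, bc v x)) (fun _ _ => trivial)
        (bob_pair_inj v hv) (Set.toFinite _)
    rw [Set.ncard_univ, Nat.card_prod, ← pow_two] at h1
    exact h1
  · intro τ
    have h1 : Set.ncard {x : SL K | x ∈ Bor v hv ∧ tr x = τ} ≤
        Set.ncard ({c : K | c ^ 2 - τ * c + 1 = 0} ×ˢ (Set.univ : Set K)) := by
      refine Set.ncard_le_ncard_of_injOn (fun x : SL K => (be v x, bc v x)) ?_ ?_ (Set.toFinite _)
      · rintro x ⟨hx, hxt⟩
        refine ⟨?_, trivial⟩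
        have := bob_eig x v hv _ (be_spec v hv x hx)
        rw [hxt] at this
        exact this
      · intro x hx y hy h
        exact bob_pair_inj v hv hx.1 hy.1 h
    rw [Set.ncard_prod, Set.ncard_univ] at h1
    exact h1.trans (Nat.mul_le_mul_right _ (bob_roots τ).1)
  · rintro a ⟨c, hc⟩ b ⟨d, hd⟩
    have hc0 := bob_ne a v hv c hc
    have hd0 := bob_ne b v hv d hd
    have hinv : ∀ (x : SL K) (e : K), e ≠ 0 → (x : M2 K).mulVec v = e • v →
        ((x⁻¹ : SL K) : M2 K).mulVec v = e⁻¹ • v := by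
      intro x e he hx
      have h1 : ((x⁻¹ : SL K) : M2 K).mulVec ((x : M2 K).mulVec v) = v := by
        rw [Matrix.mulVec_mulVec, ← Matrix.SpecialLinearGroup.coe_mul, inv_mul_cancel,
          Matrix.SpecialLinearGroup.coe_one, Matrix.one_mulVec]
      rw [hx, Matrix.mulVec_smul] at h1
      conv_rhs => rw [← h1]
      rw [smul_smul, inv_mul_cancel₀ he, one_smul]
    have ha := hinv a c hc0 hc
    have hb := hinv b d hd0 hd
    have h1 : ((cm a b : SL K) : M2 K).mulVec v = (1 : K) • v := by
      unfold cm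
      rw [Matrix.SpecialLinearGroup.coe_mul, Matrix.SpecialLinearGroup.coe_mul,
        Matrix.SpecialLinearGroup.coe_mul, ← Matrix.mulVec_mulVec, hb, Matrix.mulVec_smul,
        ← Matrix.mulVec_mulVec, ha, Matrix.mulVec_smul, ← Matrix.mulVec_mulVec, hd,
        Matrix.mulVec_smul, hc]
      simp only [smul_smul]
      field_simp
    have h2 := bob_eig (cm a b) v hv 1 h1
    linear_combination -h2

end Pool.FG.helper63
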