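import Pool.Agent.Work.MP_65e34f.Basic

/-!
# Block CNC: conics over finite fields
-/

namespace Pool.FG.helper63

open Pool.FG

section
variable {K : Type} [Field K]

lemma cnc_two_roots (p r : K) : Set.ncard {u : K | u ^ 2 + p * u + r = 0} ≤ 2 := by
  by_cases h : ∃ u : K, u ^ 2 + p * u + r = 0
  · obtain ⟨u, hu⟩ := h
    have hsub : {u : K | u ^ 2 + p * u + r = 0} ⊆ ({u, -p - u} : Set K) := by
      intro x hx
      have hx' : x ^ 2 + p * x + r = 0 := hx
      have h1 : (x - u) * (x - (-p - u)) = 0 := by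
        linear_combination hx' - hu
      rcases mul_eq_zero.1 h1 with h | h
      · left; exact sub_eq_zero.1 h
      · right; exact sub_eq_zero.1 h
    refine (Set.ncard_le_ncard hsub (Set.toFinite _)).trans ?_
    exact (Set.ncard_insert_le _ _).trans (by simp)
  · have : {u : K | u ^ 2 + p * u + r = 0} = ∅ := by
      ext x
      simp only [Set.mem_setOf_eq, Set.mem_empty_iff_false, iff_false]
      exact fun hx => h ⟨x, hx⟩
    rw [this]; simp

lemma cnc_two_roots_finite (p r : K) : {u : K | u ^ 2 + p * u + r = 0}.Finite := by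
  by_cases h : ∃ u : K, u ^ 2 + p * u + r = 0
  · obtain ⟨u, hu⟩ := h
    have hsub : {u : K | u ^ 2 + p * u + r = 0} ⊆ ({u, -p - u} : Set K) := by
      intro x hx
      have hx' : x ^ 2 + p * x + r = 0 := hx
      have h1 : (x - u) * (x - (-p - u)) = 0 := by
        linear_combination hx' - hu
      rcases mul_eq_zero.1 h1 with h | h
      · left; exact sub_eq_zero.1 h
      · right; exact sub_eq_zero.1 h
    exact (Set.toFinite _).subset hsub
  · have : {u : K | u ^ 2 + p * u + r = 0} = ∅ := by
      ext x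
      simp only [Set.mem_setOf_eq, Set.mem_empty_iff_false, iff_false]
      exact fun hx => h ⟨x, hx⟩
    rw [this]; exact Set.finite_empty

/-- nontrivial zero of a ternary quadratic form -/
lemma cnc_cw [Finite K] (s α β γ : K) : ∃ u v w : K, (u ≠ 0 ∨ v ≠ 0 ∨ w ≠ 0) ∧
    u ^ 2 - s * u * v + v ^ 2 + α * u * w + β * v * w + γ * w ^ 2 = 0 := by
  classical
  haveI := Fintype.ofFinite K
  obtain ⟨p, hp⟩ := CharP.exists K
  let f : MvPolynomial (Fin 3) K := MvPolynomial.X 0 ^ 2 - MvPolynomial.C s * MvPolynomial.X 0 *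
    MvPolynomial.X 1 + MvPolynomial.X 1 ^ 2 + MvPolynomial.C α * MvPolynomial.X 0 *
    MvPolynomial.X 2 + MvPolynomial.C β * MvPolynomial.X 1 * MvPolynomial.X 2 +
    MvPolynomial.C γ * MvPolynomial.X 2 ^ 2
  have hsq : ∀ i : Fin 3, (MvPolynomial.X i ^ 2 : MvPolynomial (Fin 3) K).totalDegree ≤ 2 := by
    intro i
    exact (MvPolynomial.totalDegree_pow _ _).trans (by simp)
  have hm : ∀ (c : K) (i j : Fin 3), (MvPolynomial.C c * MvPolynomial.X i * MvPolynomial.X j :
      MvPolynomial (Fin 3) K).totalDegree ≤ 2 := by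
    intro c i j
    refine (MvPolynomial.totalDegree_mul _ _).trans ?_
    refine (Nat.add_le_add (MvPolynomial.totalDegree_mul _ _) le_rfl).trans ?_
    simp
  have hm2 : ∀ (c : K) (i : Fin 3), (MvPolynomial.C c * MvPolynomial.X i ^ 2 :
      MvPolynomial (Fin 3) K).totalDegree ≤ 2 := by
    intro c i
    refine (MvPolynomial.totalDegree_mul _ _).trans ?_
    have := hsq i
    simp only [MvPolynomial.totalDegree_C, zero_add]
    exact this
  have hdeg : f.totalDegree ≤ 2 := by
    refine (MvPolynomial.totalDegree_add _ _).trans (max_le ?_ (hm2 _ _))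
    refine (MvPolynomial.totalDegree_add _ _).trans (max_le ?_ (hm _ _ _))
    refine (MvPolynomial.totalDegree_add _ _).trans (max_le ?_ (hm _ _ _))
    refine (MvPolynomial.totalDegree_add _ _).trans (max_le ?_ (hsq _))
    exact (MvPolynomial.totalDegree_sub _ _).trans (max_le (hsq _) (hm _ _ _))
  have hd := char_dvd_card_solutions p (f := f) (by
    rw [Fintype.card_fin]; omega)
  have hp1 : p.Prime := CharP.char_is_prime K p
  have h0 : MvPolynomial.eval (0 : Fin 3 → K) f = 0 := by simp [f]
  have hpos : 0 < Fintype.card {x : Fin 3 → K // MvPolynomial.eval x f = 0} :=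
    Fintype.card_pos_iff.2 ⟨⟨0, h0⟩⟩
  have hgt : 1 < Fintype.card {x : Fin 3 → K // MvPolynomial.eval x f = 0} :=
    lt_of_lt_of_le hp1.one_lt (Nat.le_of_dvd hpos hd)
  obtain ⟨⟨x, hx⟩, hne⟩ := Fintype.exists_ne_of_one_lt_card hgt ⟨0, h0⟩
  have hx0 : x ≠ 0 := fun h => hne (Subtype.ext h)
  refine ⟨x 0, x 1, x 2, ?_, ?_⟩
  · by_contra hcon
    push Not at hcon
    apply hx0
    funext i
    fin_cases i
    · exact hcon.1
    · exact hcon.2.1
    · exact hcon.2.2
  · simpa [f] using hx

/-- an affine point -/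
lemma cnc_point [Finite K] (s α β γ : K)
    (hd : γ * (4 - s ^ 2) - α ^ 2 - β ^ 2 - s * α * β ≠ 0) :
    ∃ u v : K, u ^ 2 - s * u * v + v ^ 2 + α * u + β * v + γ = 0 := by
  by_cases hz : ∃ z : K, z ^ 2 - s * z + 1 = 0
  · obtain ⟨z, hz⟩ := hz
    have hz0 : z ≠ 0 := by
      rintro rfl
      simp at hz
    have hs : s = z + z⁻¹ := by
      field_simp
      linear_combination (-1 : K) * hz
    by_cases he : z⁻¹ - z = 0
    · have hzz : z⁻¹ = z := sub_eq_zero.1 he
      rw [hzz] at hs
      have hz2 : z * z = 1 := by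
        have := mul_inv_cancel₀ hz0
        rwa [hzz] at this
      subst hs
      have hne : β + z * α ≠ 0 := by
        intro h
        apply hd
        have h1 : β = - (z * α) := by linear_combination h
        rw [h1]
        linear_combination (-4 * γ + α ^ 2) * hz2
      refine ⟨z * (-γ / (β + z * α)), -γ / (β + z * α), ?_⟩
      have h2 : (-γ / (β + z * α)) * (β + z * α) = -γ := div_mul_cancel₀ _ hne
      generalize (-γ / (β + z * α)) = y at h2
      linear_combination h2 + (-y ^ 2) * hz2
    · set D := z⁻¹ - z with hD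
      set b' := -((α * z + β) / D) with hb'
      set a' := α + (α * z + β) / D with ha'
      set U := 1 - b' with hU
      set V := a' * b' - γ - a' with hV
      refine ⟨U + z * ((U - V) / D), (U - V) / D, ?_⟩
      have h1 : (U - V) / D * D = U - V := div_mul_cancel₀ _ he
      generalize hv : (U - V) / D = v at h1
      have h2 : (α * z + β) / D * D = α * z + β := div_mul_cancel₀ _ he
      generalize hk : (α * z + β) / D = k at h2 ha' hb'
      have hzi : z * z⁻¹ = 1 := mul_inv_cancel₀ hz0
      have e1 : (U + z * v) ^ 2 - s * (U + z * v) * v + v ^ 2 = U * (U - v * D) := by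
        rw [hs, hD]
        linear_combination (-(v ^ 2)) * hzi
      have e2 : α * (U + z * v) + β * v = a' * U + b' * (U - v * D) := by
        rw [ha', hb']
        linear_combination (-v) * h2
      have e3 : U - v * D = V := by rw [h1]; ring
      have e4 : U * V + (a' * U + b' * V) + γ = 0 := by
        rw [hV, hU]; ring
      calc (U + z * v) ^ 2 - s * (U + z * v) * v + v ^ 2 + α * (U + z * v) + β * v + γ
          = ((U + z * v) ^ 2 - s * (U + z * v) * v + v ^ 2) + (α * (U + z * v) + β * v) + γ := by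
            ring
        _ = U * V + (a' * U + b' * V) + γ := by rw [e1, e2, e3]
        _ = 0 := e4
  · obtain ⟨u, v, w, hne, h⟩ := cnc_cw s α β γ
    have hw : w ≠ 0 := by
      rintro rfl
      have h' : u ^ 2 - s * u * v + v ^ 2 = 0 := by linear_combination h
      have hv : v ≠ 0 := by
        rintro rfl
        have : u ^ 2 = 0 := by linear_combination h'
        have hu : u = 0 := by simpa using this
        rcases hne with h | h | h
        · exact h hu
        · exact h rfl
        · exact h rfl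
      apply hz
      refine ⟨u / v, ?_⟩
      field_simp
      linear_combination h'
    refine ⟨u / w, v / w, ?_⟩
    field_simp
    linear_combination h

theorem stmt_CNC : Stmt_CNC := by
  intro K _ _ s α β γ
  have hfin : {w : K × K | w.1 ^ 2 - s * w.1 * w.2 + w.2 ^ 2 + α * w.1 + β * w.2 + γ = 0}.Finite :=
    Set.toFinite _
  constructor
  · have h := ncard_le_mul_of_fiber (s := {w : K × K | w.1 ^ 2 - s * w.1 * w.2 + w.2 ^ 2 +
      α * w.1 + β * w.2 + γ = 0}) (t := (Set.univ : Set K)) hfin (Set.toFinite _) Prod.snd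
      (fun _ _ => trivial) 2 ?_
    · rw [Set.ncard_univ] at h
      rw [mul_comm]; exact h
    · intro b _
      refine le_trans ?_ (cnc_two_roots (α - s * b) (b ^ 2 + β * b + γ))
      refine Set.ncard_le_ncard_of_injOn Prod.fst ?_ ?_ (cnc_two_roots_finite _ _)
      · rintro ⟨u, v⟩ ⟨h1, h2⟩
        have h2' : v = b := h2
        have h1' : u ^ 2 - s * u * v + v ^ 2 + α * u + β * v + γ = 0 := h1
        subst h2'
        change u ^ 2 + (α - s * v) * u + (v ^ 2 + β * v + γ) = 0
        linear_combination h1'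
      · rintro ⟨u, v⟩ ⟨_, h2⟩ ⟨u', v'⟩ ⟨_, h2'⟩ h3
        have e1 : v = b := h2
        have e2 : v' = b := h2'
        have e3 : u = u' := h3
        rw [e1, e2, e3]
  · intro hd
    obtain ⟨u0, v0, hP⟩ := cnc_point s α β γ hd
    set L1 := 2 * u0 - s * v0 + α with hL1
    set L2 := 2 * v0 - s * u0 + β with hL2
    have hL : L1 ≠ 0 ∨ L2 ≠ 0 := by
      by_contra hcon
      push Not at hcon
      obtain ⟨h1, h2⟩ := hcon
      apply hd
      have ha : α = s * v0 - 2 * u0 := by
        rw [hL1] at h1; linear_combination h1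
      have hb : β = s * u0 - 2 * v0 := by
        rw [hL2] at h2; linear_combination h2
      have hg : γ = u0 ^ 2 - s * u0 * v0 + v0 ^ 2 := by
        rw [ha, hb] at hP; linear_combination hP
      rw [hg, ha, hb]; ring
    set bad : Set K := {μ | μ ^ 2 + (-s) * μ + 1 = 0} ∪ {μ | L1 + μ * L2 = 0} with hbad
    have hbad3 : bad.ncard ≤ 3 := by
      refine (Set.ncard_union_le _ _).trans ?_
      have h1 := cnc_two_roots (-s) (1 : K)
      have h2 : Set.ncard {μ : K | L1 + μ * L2 = 0} ≤ 1 := by
        rw [Set.ncard_le_one (Set.toFinite _)]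
        intro a ha b hb
        have ha' : L1 + a * L2 = 0 := ha
        have hb' : L1 + b * L2 = 0 := hb
        by_cases h2 : L2 = 0
        · rw [h2, mul_zero, add_zero] at ha'
          exact absurd h2 (hL.resolve_left (fun h => h ha'))
        · apply mul_right_cancel₀ h2
          linear_combination ha' - hb'
      omega
    have hgood : (badᶜ).ncard ≤ Set.ncard {w : K × K | w.1 ^ 2 - s * w.1 * w.2 + w.2 ^ 2 +
        α * w.1 + β * w.2 + γ = 0} := by
      refine Set.ncard_le_ncard_of_injOn
        (fun μ => (u0 + -(L1 + μ * L2) / (μ ^ 2 + (-s) * μ + 1),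
          v0 + μ * (-(L1 + μ * L2) / (μ ^ 2 + (-s) * μ + 1)))) ?_ ?_ hfin
      · intro μ hμ
        have hq : μ ^ 2 + (-s) * μ + 1 ≠ 0 := fun h => hμ (Or.inl h)
        have h1 : (-(L1 + μ * L2) / (μ ^ 2 + (-s) * μ + 1)) * (μ ^ 2 + (-s) * μ + 1) =
          -(L1 + μ * L2) := div_mul_cancel₀ _ hq
        change (u0 + -(L1 + μ * L2) / (μ ^ 2 + (-s) * μ + 1)) ^ 2 - s *
          (u0 + -(L1 + μ * L2) / (μ ^ 2 + (-s) * μ + 1)) *
          (v0 + μ * (-(L1 + μ * L2) / (μ ^ 2 + (-s) * μ + 1))) +
          (v0 + μ * (-(L1 + μ * L2) / (μ ^ 2 + (-s) * μ + 1))) ^ 2 +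
          α * (u0 + -(L1 + μ * L2) / (μ ^ 2 + (-s) * μ + 1)) +
          β * (v0 + μ * (-(L1 + μ * L2) / (μ ^ 2 + (-s) * μ + 1))) + γ = 0
        generalize (-(L1 + μ * L2) / (μ ^ 2 + (-s) * μ + 1)) = l at h1
        rw [hL1, hL2] at h1
        linear_combination hP + l * h1
      · intro μ hμ ν hν he
        have hq : μ ^ 2 + (-s) * μ + 1 ≠ 0 := fun h => hμ (Or.inl h)
        have hl : L1 + μ * L2 ≠ 0 := fun h => hμ (Or.inr h)
        have h1 := congrArg Prod.fst he
        have h2 := congrArg Prod.snd he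
        simp only [add_right_inj] at h1 h2
        rw [← h1] at h2
        have h3 : -(L1 + μ * L2) / (μ ^ 2 + (-s) * μ + 1) ≠ 0 := div_ne_zero (neg_ne_zero.2 hl) hq
        exact mul_right_cancel₀ h3 h2
    have htot : bad.ncard + (badᶜ).ncard = Nat.card K := Set.ncard_add_ncard_compl bad
    omega

end

end Pool.FG.helper63
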