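import Pool.Agent.Work.MP_65e34f.Basic

/-!
# Block D0: fixed points on the projective line over the algebraic closure
-/

namespace Pool.FG.helper63

open Pool.FG
open Matrix
open scoped LinearAlgebra.Projectivization

section
variable {F : Type} [Field F]

lemma d0_mk_eq {v w : Fin 2 → F} (hv : v ≠ 0) (hw : w ≠ 0) :
    Projectivization.mk F v hv = Projectivization.mk F w hw ↔ v 0 * w 1 = v 1 * w 0 := by
  rw [Projectivization.mk_eq_mk_iff']
  constructor
  · rintro ⟨a, ha⟩
    have h0 := congrFun ha 0
    have h1 := congrFun ha 1
    simp only [Pi.smul_apply, smul_eq_mul] at h0 h1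
    rw [← h0, ← h1]; ring
  · intro h
    have hw' : w 0 ≠ 0 ∨ w 1 ≠ 0 := by
      by_contra hcon
      push Not at hcon
      apply hw
      ext i
      fin_cases i
      · exact hcon.1
      · exact hcon.2
    rcases hw' with h0 | h1
    · refine ⟨v 0 / w 0, ?_⟩
      ext i
      fin_cases i
      · simp [h0]
      · simp only [Pi.smul_apply, smul_eq_mul]
        change v 0 / w 0 * w 1 = v 1
        field_simp
        linear_combination h
    · refine ⟨v 1 / w 1, ?_⟩
      ext i
      fin_cases i
      · simp only [Pi.smul_apply, smul_eq_mul]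
        change v 1 / w 1 * w 0 = v 0
        field_simp
        linear_combination -h
      · simp [h1]

/-- zeros of a binary quadratic form -/
def d0_Z (α β γ : F) (v : Fin 2 → F) : Prop := α * v 0 ^ 2 + β * v 0 * v 1 + γ * v 1 ^ 2 = 0

lemma d0_vec {v : Fin 2 → F} (hv : v ≠ 0) (h1 : v 1 = 0) : v 0 ≠ 0 := by
  intro h0
  apply hv
  ext i
  fin_cases i
  · exact h0
  · exact h1

lemma d0_one [IsAlgClosed F] (α β γ : F) (hne : α ≠ 0 ∨ β ≠ 0 ∨ γ ≠ 0)
    (hd : β ^ 2 - 4 * α * γ = 0) : ∃ w : Fin 2 → F, w ≠ 0 ∧ ∀ v : Fin 2 → F, v ≠ 0 →
      (d0_Z α β γ v ↔ v 0 * w 1 = v 1 * w 0) := by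
  by_cases hα : α = 0
  · subst hα
    have hβ : β = 0 := by
      have : β ^ 2 = 0 := by linear_combination hd
      simpa using this
    subst hβ
    have hγ : γ ≠ 0 := by
      rcases hne with h | h | h
      · exact absurd rfl h
      · exact absurd rfl h
      · exact h
    refine ⟨![1, 0], ?_, ?_⟩
    · intro h
      have := congrFun h 0
      simp at this
    · intro v hv
      simp only [d0_Z, Matrix.cons_val_zero, Matrix.cons_val_one]
      constructor
      · intro h
        have h2 : γ * v 1 ^ 2 = 0 := by linear_combination h
        have h3 : v 1 = 0 := by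
          rcases mul_eq_zero.1 h2 with h | h
          · exact absurd h hγ
          · simpa using h
        rw [h3]; ring
      · intro h
        have h3 : v 1 = 0 := by linear_combination -h
        rw [h3]; ring
  · obtain ⟨r, hr⟩ : ∃ r : F, α * r ^ 2 + β * r + γ = 0 := by
      obtain ⟨r, hr⟩ := IsAlgClosed.exists_root (Polynomial.C α * Polynomial.X ^ 2 +
        Polynomial.C β * Polynomial.X + Polynomial.C γ) (by
          rw [Polynomial.degree_quadratic hα]; decide)
      exact ⟨r, by simpa [Polynomial.IsRoot] using hr⟩
    -- the double root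
    have h2r : 2 * α * r + β = 0 := by
      have : (2 * α * r + β) ^ 2 = 0 := by linear_combination hd + 4 * α * hr
      simpa using this
    refine ⟨![r, 1], ?_, ?_⟩
    · intro h
      have := congrFun h 1
      simp at this
    · intro v hv
      simp only [d0_Z, Matrix.cons_val_zero, Matrix.cons_val_one]
      have key : α * v 0 ^ 2 + β * v 0 * v 1 + γ * v 1 ^ 2 = α * (v 0 - r * v 1) ^ 2 := by
        have hb : β = -(2 * α * r) := by linear_combination h2r
        have hg : γ = α * r ^ 2 := by
          rw [hb] at hr; linear_combination hr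
        rw [hb, hg]; ring
      rw [key]
      constructor
      · intro h
        rcases mul_eq_zero.1 h with h | h
        · exact absurd h hα
        · have : v 0 - r * v 1 = 0 := by simpa using h
          linear_combination this
      · intro h
        have : v 0 - r * v 1 = 0 := by linear_combination h
        rw [this]; ring

lemma d0_two [IsAlgClosed F] (α β γ : F) (hd : β ^ 2 - 4 * α * γ ≠ 0) :
    ∃ w w' : Fin 2 → F, w ≠ 0 ∧ w' ≠ 0 ∧ ¬ (w 0 * w' 1 = w 1 * w' 0) ∧ ∀ v : Fin 2 → F, v ≠ 0 →
      (d0_Z α β γ v ↔ (v 0 * w 1 = v 1 * w 0 ∨ v 0 * w' 1 = v 1 * w' 0)) := by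
  by_cases hα : α = 0
  · subst hα
    have hβ : β ≠ 0 := by
      rintro rfl
      apply hd; ring
    refine ⟨![1, 0], ![-γ, β], ?_, ?_, ?_, ?_⟩
    · intro h
      have := congrFun h 0
      simp at this
    · intro h
      have := congrFun h 1
      simp at this
      exact hβ this
    · simp [hβ]
    · intro v hv
      simp only [d0_Z, Matrix.cons_val_zero, Matrix.cons_val_one]
      have key : 0 * v 0 ^ 2 + β * v 0 * v 1 + γ * v 1 ^ 2 = v 1 * (β * v 0 + γ * v 1) := by ring
      rw [key]
      constructor
      · intro h
        rcases mul_eq_zero.1 h with h | h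
        · left; rw [h]; ring
        · right; linear_combination h
      · rintro (h | h)
        · have h3 : v 1 = 0 := by linear_combination -h
          rw [h3]; ring
        · have h3 : β * v 0 + γ * v 1 = 0 := by linear_combination h
          rw [h3]; ring
  · obtain ⟨r, hr⟩ : ∃ r : F, α * r ^ 2 + β * r + γ = 0 := by
      obtain ⟨r, hr⟩ := IsAlgClosed.exists_root (Polynomial.C α * Polynomial.X ^ 2 +
        Polynomial.C β * Polynomial.X + Polynomial.C γ) (by
          rw [Polynomial.degree_quadratic hα]; decide)
      exact ⟨r, by simpa [Polynomial.IsRoot] using hr⟩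
    obtain ⟨t, ht⟩ : ∃ t : F, α * t = -β - α * r := ⟨(-β - α * r) / α, by field_simp⟩
    have hb : β = -(α * r + α * t) := by linear_combination ht
    have hg : γ = α * r * t := by
      rw [hb] at hr; linear_combination hr
    refine ⟨![r, 1], ![t, 1], ?_, ?_, ?_, ?_⟩
    · intro h
      have := congrFun h 1
      simp at this
    · intro h
      have := congrFun h 1
      simp at this
    · simp only [Matrix.cons_val_zero, Matrix.cons_val_one]
      intro h
      have hrt : r = t := by linear_combination h
      apply hd
      rw [hb, hg, hrt]; ring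
    · intro v hv
      simp only [d0_Z, Matrix.cons_val_zero, Matrix.cons_val_one]
      have key : α * v 0 ^ 2 + β * v 0 * v 1 + γ * v 1 ^ 2 =
          α * ((v 0 - r * v 1) * (v 0 - t * v 1)) := by
        rw [hb, hg]; ring
      rw [key]
      constructor
      · intro h
        rcases mul_eq_zero.1 h with h | h
        · exact absurd h hα
        · rcases mul_eq_zero.1 h with h | h
          · left; linear_combination h
          · right; linear_combination h
      · rintro (h | h)
        · have : v 0 - r * v 1 = 0 := by linear_combination h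
          rw [this]; ring
        · have : v 0 - t * v 1 = 0 := by linear_combination h
          rw [this]; ring

end

section
variable {K : Type} [Field K]

/-- fixed points are zeros of the form attached to `x` -/
lemma d0_fix (x : SL K) (v : Fin 2 → AlgebraicClosure K) (hv : v ≠ 0) :
    (x • (Projectivization.mk (AlgebraicClosure K) v hv : PF K) =
      Projectivization.mk (AlgebraicClosure K) v hv) ↔
    d0_Z (-(algebraMap K (AlgebraicClosure K) (x.1 1 0)))
      (algebraMap K (AlgebraicClosure K) (x.1 0 0 - x.1 1 1))
      (algebraMap K (AlgebraicClosure K) (x.1 0 1)) v := by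
  have h1 : (x • (Projectivization.mk (AlgebraicClosure K) v hv : PF K)) =
      (Matrix.SpecialLinearGroup.map (n := Fin 2) (algebraMap K (AlgebraicClosure K)) x) •
        (Projectivization.mk (AlgebraicClosure K) v hv) := rfl
  rw [h1, Projectivization.smul_mk, d0_mk_eq]
  have e : ∀ i, ((Matrix.SpecialLinearGroup.map (n := Fin 2)
      (algebraMap K (AlgebraicClosure K)) x) • v) i =
      algebraMap K (AlgebraicClosure K) (x.1 i 0) * v 0 +
        algebraMap K (AlgebraicClosure K) (x.1 i 1) * v 1 := by
    intro i
    change ((x.1.map (algebraMap K (AlgebraicClosure K))).mulVec v) i = _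
    simp [Matrix.mulVec, dotProduct, Fin.sum_univ_two]
  rw [e, e, d0_Z]
  simp only [map_sub]
  constructor
  · intro h; linear_combination h
  · intro h; linear_combination h

theorem stmt_D0 : Stmt_D0 := by
  intro K _ _
  refine ⟨?_, ?_, ?_⟩
  · intro x P hx
    induction P using Projectivization.ind with | _ v hv =>
    rw [d0_fix]
    obtain ⟨h1, h2, h3⟩ := (Sc_iff x).1 hx
    rw [h1, h2, h3]
    simp [d0_Z]
  · intro x hx
    obtain ⟨hs, ht⟩ := hx
    have hdet := det_eq x
    obtain ⟨w, hw, h⟩ := d0_one (F := AlgebraicClosure K)
      (-(algebraMap K (AlgebraicClosure K) (x.1 1 0)))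
      (algebraMap K (AlgebraicClosure K) (x.1 0 0 - x.1 1 1))
      (algebraMap K (AlgebraicClosure K) (x.1 0 1)) (by
        by_contra hcon
        push Not at hcon
        obtain ⟨c1, c2, c3⟩ := hcon
        apply hs
        rw [Sc_iff]
        have i := (algebraMap K (AlgebraicClosure K)).injective
        refine ⟨?_, ?_, ?_⟩
        · apply i; rw [c3, map_zero]
        · apply i; rw [map_zero]; linear_combination -c1
        · have := i (c2.trans (map_zero _).symm)
          linear_combination this) (by
        have e : (x.1 0 0 - x.1 1 1) ^ 2 + 4 * x.1 1 0 * x.1 0 1 = 0 := by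
          have ht' : (x.1 0 0 + x.1 1 1) ^ 2 = 4 := ht
          linear_combination ht' - 4 * hdet
        have := congrArg (algebraMap K (AlgebraicClosure K)) e
        simp only [map_add, map_pow, map_mul, map_sub, map_zero, map_ofNat] at this
        simp only [map_sub]
        linear_combination this)
    refine ⟨Projectivization.mk _ w hw, ?_⟩
    intro Q
    induction Q using Projectivization.ind with | _ v hv =>
    rw [d0_fix, d0_mk_eq]
    exact h v hv
  · intro x hs hp
    have hdet := det_eq x
    have ht : tr x ^ 2 ≠ 4 := fun h => hp ⟨hs, h⟩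
    obtain ⟨w, w', hw, hw', hne, h⟩ := d0_two (F := AlgebraicClosure K)
      (-(algebraMap K (AlgebraicClosure K) (x.1 1 0)))
      (algebraMap K (AlgebraicClosure K) (x.1 0 0 - x.1 1 1))
      (algebraMap K (AlgebraicClosure K) (x.1 0 1)) (by
        intro hd
        apply ht
        have i := (algebraMap K (AlgebraicClosure K)).injective
        have e : (x.1 0 0 - x.1 1 1) ^ 2 + 4 * x.1 1 0 * x.1 0 1 = 0 := by
          apply i
          simp only [map_add, map_pow, map_mul, map_sub, map_zero, map_ofNat]
          simp only [map_sub] at hd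
          linear_combination hd
        change (x.1 0 0 + x.1 1 1) ^ 2 = 4
        linear_combination e + 4 * hdet)
    refine ⟨Projectivization.mk _ w hw, Projectivization.mk _ w' hw', ?_, ?_⟩
    · intro he
      rw [d0_mk_eq] at he
      exact hne he
    · intro Q
      induction Q using Projectivization.ind with | _ v hv =>
      rw [d0_fix, d0_mk_eq, d0_mk_eq]
      exact h v hv

end

end Pool.FG.helper63
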