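import Pool.Agent.Work.MP_65e34f_helper63.D0

/-!
# Block D6: an irreducible subgroup contains an irreducible pair
-/

namespace Pool.FG.helper63

open Pool.FG
open Matrix
open scoped LinearAlgebra.Projectivization

section
variable {F : Type} [Field F]

/-- zeros of a binary quadratic form and its resultants -/
lemma d6_factor [IsAlgClosed F] (α β γ : F) (hne : α ≠ 0 ∨ β ≠ 0 ∨ γ ≠ 0) :
    ∃ w w' : Fin 2 → F, w ≠ 0 ∧ w' ≠ 0 ∧ ∀ α' β' γ' : F,
      (α * γ' - γ * α') ^ 2 - (α * β' - β * α') * (β * γ' - γ * β') = 0 →
      d0_Z α' β' γ' w ∨ d0_Z α' β' γ' w' := by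
  by_cases hα : α = 0
  · subst hα
    refine ⟨![1, 0], ![-γ, β], ?_, ?_, ?_⟩
    · intro h
      have := congrFun h 0
      simp at this
    · intro h
      have h0 := congrFun h 0
      have h1 := congrFun h 1
      simp at h0 h1
      rcases hne with h | h | h
      · exact h rfl
      · exact h h1
      · exact h h0
    · intro α' β' γ' h
      simp only [d0_Z, Matrix.cons_val_zero, Matrix.cons_val_one]
      have key : α' * (α' * (-γ) ^ 2 + β' * (-γ) * β + γ' * β ^ 2) = 0 := by
        linear_combination h
      rcases mul_eq_zero.1 key with h | h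
      · left; rw [h]; ring
      · right; exact h
  · obtain ⟨r, hr⟩ : ∃ r : F, α * r ^ 2 + β * r + γ = 0 := by
      obtain ⟨r, hr⟩ := IsAlgClosed.exists_root (Polynomial.C α * Polynomial.X ^ 2 +
        Polynomial.C β * Polynomial.X + Polynomial.C γ) (by
          rw [Polynomial.degree_quadratic hα]; decide)
      exact ⟨r, by simpa [Polynomial.IsRoot] using hr⟩
    obtain ⟨t, ht⟩ : ∃ t : F, α * t = -β - α * r := ⟨(-β - α * r) / α, by field_simp⟩
    have hb : β = -(α * r + α * t) := by linear_combination ht
    have hg : γ = α * r * t := by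
      rw [hb] at hr; linear_combination hr
    refine ⟨![r, 1], ![t, 1], ?_, ?_, ?_⟩
    · intro h
      have := congrFun h 1
      simp at this
    · intro h
      have := congrFun h 1
      simp at this
    · intro α' β' γ' h
      simp only [d0_Z, Matrix.cons_val_zero, Matrix.cons_val_one]
      have key : α ^ 2 * ((α' * r ^ 2 + β' * r * 1 + γ' * 1 ^ 2) *
          (α' * t ^ 2 + β' * t * 1 + γ' * 1 ^ 2)) = 0 := by
        rw [hb, hg] at h
        linear_combination h
      rcases mul_eq_zero.1 key with h | h
      · exact absurd h (pow_ne_zero 2 hα)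
      · exact mul_eq_zero.1 h

end

theorem stmt_D6 (_hD0 : Stmt_D0) : Stmt_D6 := by
  intro K _ _ H hH
  by_contra hcon
  push Not at hcon
  apply hH
  by_cases hsc : ∀ x ∈ H, Sc x
  · have hv : (![1, 0] : Fin 2 → AlgebraicClosure K) ≠ 0 := by
      intro h
      have := congrFun h 0
      simp at this
    refine ⟨Projectivization.mk _ ![1, 0] hv, fun h hh => ?_⟩
    exact (stmt_D0 K).1 h _ (hsc h hh)
  · push Not at hsc
    obtain ⟨x, hx, hxs⟩ := hsc
    have i := (algebraMap K (AlgebraicClosure K)).injective
    obtain ⟨w, w', hw, hw', hres⟩ := d6_factor (F := AlgebraicClosure K)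
      (-(algebraMap K (AlgebraicClosure K) (x.1 1 0)))
      (algebraMap K (AlgebraicClosure K) (x.1 0 0 - x.1 1 1))
      (algebraMap K (AlgebraicClosure K) (x.1 0 1)) (by
        by_contra hcon
        push Not at hcon
        obtain ⟨c1, c2, c3⟩ := hcon
        apply hxs
        rw [Sc_iff]
        refine ⟨?_, ?_, ?_⟩
        · apply i; rw [c3, map_zero]
        · apply i; rw [map_zero]; linear_combination -c1
        · have := i (c2.trans (map_zero _).symm)
          linear_combination this)
    have hfix : ∀ y ∈ H, y • (Projectivization.mk _ w hw : PF K) = Projectivization.mk _ w hw ∨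
        y • (Projectivization.mk _ w' hw' : PF K) = Projectivization.mk _ w' hw' := by
      intro y hy
      rw [d0_fix, d0_fix]
      apply hres
      have hk := hcon x hx y hy
      have hdx := det_eq x
      have hdy := det_eq y
      have e : (-(x.1 1 0) * y.1 0 1 - x.1 0 1 * -(y.1 1 0)) ^ 2 -
          (-(x.1 1 0) * (y.1 0 0 - y.1 1 1) - (x.1 0 0 - x.1 1 1) * -(y.1 1 0)) *
          ((x.1 0 0 - x.1 1 1) * y.1 0 1 - x.1 0 1 * (y.1 0 0 - y.1 1 1)) = 0 := by
        simp only [kp, kap, tr, Matrix.SpecialLinearGroup.coe_mul, Matrix.mul_apply,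
          Fin.sum_univ_two] at hk
        linear_combination hk + ((y.1 0 0 + y.1 1 1) ^ 2 - 4) * hdx +
          ((x.1 0 0 + x.1 1 1) ^ 2 - 4 * (x.1 0 0 * x.1 1 1 - x.1 0 1 * x.1 1 0)) * hdy
      have := congrArg (algebraMap K (AlgebraicClosure K)) e
      simp only [map_sub, map_mul, map_pow, map_neg, map_zero] at this
      simp only [map_sub]
      linear_combination this
    by_contra hno
    have h1 : ¬ ∀ h ∈ H, h • (Projectivization.mk _ w hw : PF K) = Projectivization.mk _ w hw :=
      fun h => hno ⟨_, h⟩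
    have h2 : ¬ ∀ h ∈ H, h • (Projectivization.mk _ w' hw' : PF K) = Projectivization.mk _ w' hw' :=
      fun h => hno ⟨_, h⟩
    push Not at h1 h2
    obtain ⟨h, hh, hh'⟩ := h1
    obtain ⟨k, hk, hk'⟩ := h2
    have e1 := (hfix h hh).resolve_left hh'
    have e2 := (hfix k hk).resolve_right hk'
    rcases hfix (h * k) (H.mul_mem hh hk) with h3 | h3
    · rw [mul_smul, e2] at h3
      exact hh' h3
    · rw [mul_smul] at h3
      apply hk'
      have h4 := congrArg (fun z => h⁻¹ • z) h3
      simp only [inv_smul_smul] at h4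
      rw [h4, inv_smul_eq_iff]
      exact e1.symm

end Pool.FG.helper63
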