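import Pool.Agent.Work.MP_65e34f.Basic

/-!
# Block KAP: one of the two sign choices is irreducible
-/

namespace Pool.FG.helper63

open Pool.FG
open Matrix

section
variable {K : Type} [Field K]

lemma kap_tr_pow_succ (x : SL K) (n : ℕ) : tr (x ^ (n + 2)) = tr x * tr (x ^ (n + 1)) - tr (x ^ n) := by
  have h := tr_inv_mul x (x ^ (n + 1))
  have e1 : x⁻¹ * x ^ (n + 1) = x ^ n := by rw [pow_succ', inv_mul_cancel_left]
  have e2 : x * x ^ (n + 1) = x ^ (n + 2) := by rw [← pow_succ']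
  rw [e1, e2] at h
  linear_combination h

lemma kap_tr_pow {x y : SL K} (h : tr x = tr y) (n : ℕ) : tr (x ^ n) = tr (y ^ n) := by
  induction n using Nat.twoStepInduction with
  | zero => simp
  | one => simpa using h
  | more n ih1 ih2 => rw [kap_tr_pow_succ, kap_tr_pow_succ, h, ih1, ih2]

lemma kap_two_ne {n : ℕ} (h : Nat.Coprime (ringChar K) (6 * n)) : (2 : K) ≠ 0 := by
  intro h2
  have h3 : ((2 : ℕ) : K) = 0 := by exact_mod_cast h2
  have h4 : ringChar K ∣ 2 := (ringChar.spec K 2).1 h3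
  have h5 : ringChar K ∣ 6 * n := h4.trans ⟨3 * n, by ring⟩
  have h6 : ringChar K = 1 := Nat.Coprime.eq_one_of_dvd h h5
  have h7 : ((1 : ℕ) : K) = 0 := (ringChar.spec K 1).2 (by rw [h6])
  simp at h7

lemma kap_sq (x : SL K) (h : tr x = 0) : x ^ 2 = -1 := by
  apply Subtype.ext
  have := mul_self_eq x
  rw [h, zero_smul, zero_sub] at this
  rw [pow_two, Matrix.SpecialLinearGroup.coe_mul, this]
  simp

lemma kap_even {m : ℕ} (h : (0 : K) ∈ Trs K m) : Even m := by
  obtain ⟨x, h1, h2, h3⟩ := h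
  by_contra hodd
  rw [Nat.not_even_iff_odd] at hodd
  obtain ⟨k, rfl⟩ := hodd
  apply h1
  have h4 : Sc ((x ^ 2) ^ k) := by
    rw [kap_sq x h3]
    exact Sc_neg_one.pow k
  rw [pow_add, pow_one, pow_mul] at h2
  have : x = ((x ^ 2) ^ k)⁻¹ * ((x ^ 2) ^ k * x) := by group
  rw [this]
  exact h4.inv.mul h2

lemma kap_sq_one {x : SL K} {m : ℕ} (h : Sc (x ^ m)) : (x ^ 2) ^ m = 1 := by
  rw [← pow_mul, mul_comm, pow_mul]
  rcases h with h | h
  · rw [h]; simp
  · rw [h]; simp

lemma kap_core {m n : ℕ} {σ τ : K} (h2 : (2 : K) ≠ 0) (hm : Odd m) (hn : Odd n)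
    (h : σ ∈ Trs K m) (h' : τ ∈ Trs K n) (hs : σ ^ 2 + τ ^ 2 = 4) : False := by
  obtain ⟨x, -, hx, hxs⟩ := h
  obtain ⟨y, -, hy, hys⟩ := h'
  have e1 := kap_sq_one hx
  have e2 := kap_sq_one hy
  have htr : ∀ z : SL K, tr (z ^ 2) = tr z ^ 2 - 2 := by
    intro z
    have := kap_tr_pow_succ z 0
    simp only [zero_add, pow_one, pow_zero, tr_one] at this
    rw [this]; ring
  have h3 : tr (y ^ 2) = tr (-(x ^ 2)) := by
    rw [tr_neg, htr, htr, hxs, hys]
    linear_combination hs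
  have h4 := kap_tr_pow h3 (m * n)
  rw [mul_comm m n, pow_mul, e2, one_pow, tr_one, mul_comm n m, Odd.neg_pow (hm.mul hn),
    pow_mul, e1, one_pow, tr_neg, tr_one] at h4
  apply h2
  have : (2 : K) * 2 = 0 := by linear_combination h4
  rcases mul_eq_zero.1 this with h | h <;> exact h

theorem stmt_KAP : Stmt_KAP := by
  intro K _ _ m1 m2 m3 _ _ _ hc n12 n13 n23 τ1 h1 τ2 h2 τ3 h3
  have h20 : (2 : K) ≠ 0 := by
    apply kap_two_ne (n := m1 * m2 * m3)
    have : 6 * (m1 * m2 * m3) = 6 * m1 * m2 * m3 := by ring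
    rw [this]; exact hc
  by_contra hcon
  push Not at hcon
  obtain ⟨k1, k2⟩ := hcon
  have hprod : τ1 * τ2 * τ3 = 0 := by
    have : (2 : K) * (τ1 * τ2 * τ3) = 0 := by
      unfold kap at k1 k2
      linear_combination k2 - k1
    rcases mul_eq_zero.1 this with h | h
    · exact absurd h h20
    · exact h
  have odd_of : ∀ {a b : ℕ}, ¬ (Even a ∧ Even b) → Even a → Odd b := by
    intro a b h ha
    rw [← Nat.not_even_iff_odd]
    exact fun hb => h ⟨ha, hb⟩
  rcases mul_eq_zero.1 hprod with h | h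
  · rcases mul_eq_zero.1 h with h | h
    · subst h
      have he := kap_even h1
      refine kap_core h20 (odd_of n12 he) (odd_of n13 he) h2 h3 ?_
      unfold kap at k1
      linear_combination k1
    · subst h
      have he := kap_even h2
      refine kap_core h20 (odd_of (fun h => n12 ⟨h.2, h.1⟩) he) (odd_of n23 he) h1 h3 ?_
      unfold kap at k1
      linear_combination k1
  · subst h
    have he := kap_even h3
    refine kap_core h20 (odd_of (fun h => n13 ⟨h.2, h.1⟩) he) (odd_of (fun h => n23 ⟨h.2, h.1⟩) he)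
      h1 h2 ?_
    unfold kap at k1
    linear_combination k1

end

end Pool.FG.helper63
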