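import Pool.Agent.Work.MP_65e34f.Basic

/-!
# Block SIG: a pair whose traces lie (up to signs) in a proper subfield does not generate
-/

namespace Pool.FG.helper63

open Pool.FG
open Matrix

section
variable {K : Type} [Field K]

/-- a proper subfield of a finite field is fixed by a nontrivial endomorphism -/
lemma sig_exists [Finite K] (L : Subfield K) (hL : L ≠ ⊤) :
    ∃ σ : K →+* K, (∀ a ∈ L, σ a = a) ∧ ∃ z, σ z ≠ z := by
  classical
  haveI := Fintype.ofFinite K
  haveI := Fintype.ofFinite L
  obtain ⟨p, hp⟩ := CharP.exists K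
  haveI : Fact p.Prime := ⟨CharP.char_is_prime K p⟩
  haveI : CharP L p := (algebraMap L K).charP (algebraMap L K).injective p
  obtain ⟨n, -, hn⟩ := FiniteField.card L p
  refine ⟨iterateFrobenius K p n, ?_, ?_⟩
  · intro a ha
    rw [iterateFrobenius_def, ← hn]
    have := FiniteField.pow_card (⟨a, ha⟩ : L)
    exact congrArg Subtype.val this
  · by_contra hcon
    push Not at hcon
    apply hL
    have hq : 1 < Fintype.card L := Fintype.one_lt_card
    have hroot : ∀ z : K, z ^ Fintype.card L - z = 0 := by
      intro z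
      have := hcon z
      rw [iterateFrobenius_def, ← hn] at this
      rw [this, sub_self]
    have hne : (Polynomial.X ^ Fintype.card L - Polynomial.X : Polynomial K) ≠ 0 :=
      FiniteField.X_pow_card_sub_X_ne_zero K hq
    have hcard : Fintype.card K ≤ Fintype.card L := by
      have h1 : (Finset.univ : Finset K) ⊆
          (Polynomial.X ^ Fintype.card L - Polynomial.X : Polynomial K).roots.toFinset := by
        intro z _
        rw [Multiset.mem_toFinset, Polynomial.mem_roots hne]
        simpa [Polynomial.IsRoot] using hroot z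
      have h2 := Finset.card_le_card h1
      rw [Finset.card_univ] at h2
      refine h2.trans ((Multiset.toFinset_card_le _).trans ((Polynomial.card_roots' _).trans ?_))
      rw [FiniteField.X_pow_card_sub_X_natDegree_eq K hq]
    have hinj : Function.Injective (fun a : L => (a : K)) := Subtype.val_injective
    have hsurj : Function.Surjective (fun a : L => (a : K)) := by
      have := (Fintype.bijective_iff_injective_and_card (fun a : L => (a : K))).2
        ⟨hinj, le_antisymm (Fintype.card_le_of_injective _ hinj) hcard⟩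
      exact this.2
    rw [eq_top_iff]
    intro z _
    obtain ⟨a, rfl⟩ := hsurj z
    exact a.2

/-- choice of signs -/
lemma sig_signs {a b c a' b' c' : K} (ha : a' ^ 2 = a ^ 2) (hb : b' ^ 2 = b ^ 2)
    (hc : c' ^ 2 = c ^ 2) (h : a' * b' * c' = a * b * c) :
    ∃ e f : K, (e = 1 ∨ e = -1) ∧ (f = 1 ∨ f = -1) ∧ e * a' = a ∧ f * b' = b ∧
      e * f * c' = c := by
  have key : ∀ {a a' : K}, a' ^ 2 = a ^ 2 → ∃ e : K, (e = 1 ∨ e = -1) ∧ e * a' = a := by
    intro a a' h
    have h1 : (a' - a) * (a' + a) = 0 := by linear_combination h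
    rcases mul_eq_zero.1 h1 with h | h
    · exact ⟨1, Or.inl rfl, by linear_combination h⟩
    · exact ⟨-1, Or.inr rfl, by linear_combination -h⟩
  obtain ⟨e, he, hea⟩ := key ha
  obtain ⟨f, hf, hfb⟩ := key hb
  obtain ⟨g, hg, hgc⟩ := key hc
  have he2 : e * e = 1 := by rcases he with rfl | rfl <;> ring
  have hf2 : f * f = 1 := by rcases hf with rfl | rfl <;> ring
  have hg2 : g * g = 1 := by rcases hg with rfl | rfl <;> ring
  have heq : ∀ {e f : K}, (e = 1 ∨ e = -1) → (f = 1 ∨ f = -1) → (e * f = 1 ∨ e * f = -1) := by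
    rintro e f (rfl | rfl) (rfl | rfl)
    · left; ring
    · right; ring
    · right; ring
    · left; ring
  by_cases h0a : a' = 0
  · subst h0a
    refine ⟨g * f, f, heq hg hf, hf, ?_, hfb, ?_⟩
    · rw [mul_zero]; rw [mul_zero] at hea; exact hea
    · calc g * f * f * c' = g * c' * (f * f) := by ring
        _ = c := by rw [hgc, hf2, mul_one]
  by_cases h0b : b' = 0
  · subst h0b
    refine ⟨e, e * g, he, heq he hg, hea, ?_, ?_⟩
    · rw [mul_zero]; rw [mul_zero] at hfb; exact hfb
    · calc e * (e * g) * c' = g * c' * (e * e) := by ring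
        _ = c := by rw [hgc, he2, mul_one]
  by_cases h0c : c' = 0
  · subst h0c
    refine ⟨e, f, he, hf, hea, hfb, ?_⟩
    rw [mul_zero]; rw [mul_zero] at hgc; exact hgc
  · refine ⟨e, f, he, hf, hea, hfb, ?_⟩
    have h1 : a' * b' * c' = e * f * g * (a' * b' * c') := by
      calc a' * b' * c' = a * b * c := h
        _ = (e * a') * (f * b') * (g * c') := by rw [hea, hfb, hgc]
        _ = _ := by ring
    have hne : a' * b' * c' ≠ 0 := mul_ne_zero (mul_ne_zero h0a h0b) h0c
    have h2 : e * f * g = 1 := by
      have : (e * f * g - 1) * (a' * b' * c') = 0 := by linear_combination -h1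
      rcases mul_eq_zero.1 this with h | h
      · linear_combination h
      · exact absurd h hne
    calc e * f * c' = e * f * (g * g) * c' := by rw [hg2, mul_one]
      _ = (e * f * g) * (g * c') := by ring
      _ = c := by rw [h2, hgc, one_mul]

/-- companion matrix -/
def sig_comp (t : K) : SL K := ⟨!![0, -1; 1, t], by simp [Matrix.det_fin_two]⟩

lemma sig_tr_comp (t : K) : tr (sig_comp t) = t := by simp [tr, sig_comp]

/-- multiplication by a sign -/
def sig_sgn (e : K) (he : e = 1 ∨ e = -1) (x : SL K) : SL K :=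
  ⟨e • (x : M2 K), by
    rw [Matrix.det_smul, x.2, Fintype.card_fin]
    rcases he with rfl | rfl <;> ring⟩

theorem stmt_SIG (hU : Stmt_UNQ) : Stmt_SIG := by
  intro K _ _ x y hk L hL h1 h2 h3 h4 htop
  obtain ⟨σ, hσ, z, hz⟩ := sig_exists L hL
  obtain ⟨e, f, he, hf, e1, e2, e3⟩ := sig_signs (a := tr x) (b := tr y) (c := tr (x * y))
    (a' := σ (tr x)) (b' := σ (tr y)) (c' := σ (tr (x * y)))
    (by rw [← map_pow, hσ _ h1]) (by rw [← map_pow, hσ _ h2]) (by rw [← map_pow, hσ _ h3])
    (by rw [← map_mul, ← map_mul, hσ _ h4])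
  let s : SL K →* SL K := Matrix.SpecialLinearGroup.map (n := Fin 2) σ
  have hs : ∀ (h : SL K) i j, (s h).1 i j = σ (h.1 i j) := fun h i j => rfl
  have htr : ∀ h : SL K, tr (s h) = σ (tr h) := by
    intro h
    simp only [tr, hs, map_add]
  have hee : e * e = 1 := by rcases he with rfl | rfl <;> ring
  have hff : f * f = 1 := by rcases hf with rfl | rfl <;> ring
  obtain ⟨g, hg1, hg2⟩ := hU K x y (sig_sgn e he (s x)) (sig_sgn f hf (s y)) hk
    (by
      have := htr x
      simp only [tr, sig_sgn, Matrix.smul_apply, smul_eq_mul] at this ⊢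
      rw [← mul_add]
      rw [this]
      exact e1.symm)
    (by
      have := htr y
      simp only [tr, sig_sgn, Matrix.smul_apply, smul_eq_mul] at this ⊢
      rw [← mul_add]
      rw [this]
      exact e2.symm)
    (by
      have h5 := htr (x * y)
      have h6 : tr (sig_sgn e he (s x) * sig_sgn f hf (s y)) = e * f * tr (s (x * y)) := by
        rw [map_mul]
        simp only [tr, sig_sgn, Matrix.SpecialLinearGroup.coe_mul, Matrix.mul_apply,
          Fin.sum_univ_two, Matrix.smul_apply, smul_eq_mul]
        ring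
      rw [h6, h5]
      exact e3.symm)
  -- the subgroup
  have hall : ∀ h : SL K, ∃ c : K, (c = 1 ∨ c = -1) ∧
      (g : M2 K) * (h : M2 K) = c • ((s h : M2 K) * (g : M2 K)) := by
    intro h
    have hmem : h ∈ Subgroup.closure ({x, y, -1} : Set (SL K)) := by rw [htop]; trivial
    induction hmem using Subgroup.closure_induction with
    | mem a ha =>
      rcases ha with rfl | rfl | ha
      · refine ⟨e, he, ?_⟩
        rw [hg1]
        simp [sig_sgn]
      · refine ⟨f, hf, ?_⟩
        rw [hg2]
        simp [sig_sgn]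
      · rw [Set.mem_singleton_iff] at ha
        subst ha
        refine ⟨1, Or.inl rfl, ?_⟩
        have : ((s (-1 : SL K) : SL K) : M2 K) = -1 := by
          ext i j
          rw [hs]
          fin_cases i <;> fin_cases j <;> simp
        rw [this]; simp
    | one => exact ⟨1, Or.inl rfl, by simp⟩
    | mul a b _ _ iha ihb =>
      obtain ⟨c, hc, h1⟩ := iha
      obtain ⟨d, hd, h2⟩ := ihb
      refine ⟨c * d, ?_, ?_⟩
      · rcases hc with rfl | rfl <;> rcases hd with rfl | rfl
        · left; ring
        · right; ring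
        · right; ring
        · left; ring
      · rw [Matrix.SpecialLinearGroup.coe_mul, ← mul_assoc, h1, smul_mul_assoc, mul_assoc, h2,
          map_mul, Matrix.SpecialLinearGroup.coe_mul, mul_smul_comm, smul_smul, mul_assoc]
    | inv a _ iha =>
      obtain ⟨c, hc, h1⟩ := iha
      refine ⟨c, hc, ?_⟩
      have hcc : c * c = 1 := by rcases hc with rfl | rfl <;> ring
      have i1 : (a : M2 K) * ((a⁻¹ : SL K) : M2 K) = 1 := by
        rw [← Matrix.SpecialLinearGroup.coe_mul, mul_inv_cancel, Matrix.SpecialLinearGroup.coe_one]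
      have i2 : ((s a⁻¹ : SL K) : M2 K) * (s a : M2 K) = 1 := by
        rw [← Matrix.SpecialLinearGroup.coe_mul, ← map_mul, inv_mul_cancel, map_one,
          Matrix.SpecialLinearGroup.coe_one]
      have h2 : (s a⁻¹ : M2 K) * (g : M2 K) = c • ((g : M2 K) * ((a⁻¹ : SL K) : M2 K)) := by
        calc (s a⁻¹ : M2 K) * (g : M2 K)
            = (s a⁻¹ : M2 K) * ((g : M2 K) * (a : M2 K)) * ((a⁻¹ : SL K) : M2 K) := by
              rw [mul_assoc, mul_assoc, i1, mul_one]
          _ = c • (((s a⁻¹ : SL K) : M2 K) * (s a : M2 K) * (g : M2 K) *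
              ((a⁻¹ : SL K) : M2 K)) := by
              rw [h1]
              simp only [mul_smul_comm, smul_mul_assoc, mul_assoc]
          _ = _ := by rw [i2, one_mul]
      rw [h2, smul_smul, hcc, one_smul]
  have hgi : ((g⁻¹ : GL (Fin 2) K) : M2 K) * (g : M2 K) = 1 := by
    rw [← Units.val_mul, inv_mul_cancel, Units.val_one]
  have hgi' : (g : M2 K) * ((g⁻¹ : GL (Fin 2) K) : M2 K) = 1 := by
    rw [← Units.val_mul, mul_inv_cancel, Units.val_one]
  have hpm : ∀ t : K, σ t = t ∨ σ t = -t := by
    intro t
    obtain ⟨c, hc, h⟩ := hall (sig_comp t)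
    have hcc : c * c = 1 := by rcases hc with rfl | rfl <;> ring
    have h5 : (sig_comp t : M2 K).trace = c * (s (sig_comp t) : M2 K).trace := by
      calc (sig_comp t : M2 K).trace
          = (((g⁻¹ : GL (Fin 2) K) : M2 K) * ((g : M2 K) * (sig_comp t : M2 K))).trace := by
            rw [← mul_assoc, hgi, one_mul]
        _ = c * (((g⁻¹ : GL (Fin 2) K) : M2 K) * ((s (sig_comp t) : M2 K) * (g : M2 K))).trace := by
            rw [h, mul_smul_comm, Matrix.trace_smul, smul_eq_mul]
        _ = c * (s (sig_comp t) : M2 K).trace := by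
            rw [Matrix.trace_mul_comm, mul_assoc, hgi', mul_one]
    rw [← tr_eq_trace, ← tr_eq_trace, htr, sig_tr_comp] at h5
    rcases hc with rfl | rfl
    · left; linear_combination -h5
    · right; linear_combination h5
  apply hz
  rcases hpm z with h | h
  · exact h
  · have h6 : σ (z + 1) = -z + 1 := by rw [map_add, map_one, h]
    rcases hpm (z + 1) with h7 | h7
    · rw [h6] at h7
      rw [h]; linear_combination h7
    · rw [h6] at h7
      have h8 : (2 : K) = 0 := by linear_combination h7
      rw [h]; linear_combination (-z) * h8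

end

end Pool.FG.helper63
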