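import Pool.Agent.Work.MP_65e34f.Basic

/-!
# Block TSU: triangle type, triples over a subfield
-/

namespace Pool.FG.helper63

open Pool.FG
open Matrix

section
variable {K : Type} [Field K]

/-- the triple with product one -/
def tsu_map (w : SL K × SL K) : List (SL K) × (Fin (Wd.n .zero) → SL K) :=
  ([w.1, w.2, (w.1 * w.2)⁻¹], fun _ => 1)

lemma tsu_map_inj : Function.Injective (tsu_map : SL K × SL K → _) := by
  rintro ⟨a, b⟩ ⟨c, d⟩ h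
  have h1 := congrArg Prod.fst h
  simp only [tsu_map, List.cons.injEq] at h1
  rw [h1.1, h1.2.1]

lemma tsu_mem (hCNJ : Stmt_CNJ) {m1 m2 m3 : ℕ} {τ1 τ2 τ3 : K} (h1 : τ1 ∈ Trs K m1)
    (h2 : τ2 ∈ Trs K m2) (h3 : τ3 ∈ Trs K m3) {x y : SL K} (hx : tr x = τ1) (hy : tr y = τ2)
    (hxy : tr (x * y) = τ3 ∨ tr (x * y) = -τ3) :
    tsu_map (x, y) ∈ Tup .zero [m1, m2, m3] (⊤ : Subgroup (SL K)) := by
  obtain ⟨u1, a1, b1, c1⟩ := h1
  obtain ⟨u2, a2, b2, c2⟩ := h2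
  obtain ⟨u3, a3, b3, c3⟩ := h3
  refine ⟨?_, fun j => Subgroup.mem_top _, ?_⟩
  · change [x, y, (x * y)⁻¹] ∈ Xs [m1, m2, m3] (⊤ : Subgroup (SL K))
    rw [cons_mem_Xs, cons_mem_Xs, cons_mem_Xs]
    refine ⟨trivial, (hCNJ K).2 u1 x m1 a1 b1 (hx.trans c1.symm), trivial,
      (hCNJ K).2 u2 y m2 a2 b2 (hy.trans c2.symm), trivial, ?_, by simp⟩
    rcases hxy with h | h
    · exact (hCNJ K).2 u3 _ m3 a3 b3 (by rw [tr_inv, h, c3])
    · have h4 : Sc ((-(x * y)⁻¹) ^ m3) :=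
        (hCNJ K).2 u3 _ m3 a3 b3 (by rw [tr_neg, tr_inv, h, c3, neg_neg])
      rw [neg_pow] at h4
      rcases Nat.even_or_odd m3 with he | ho
      · rw [he.neg_one_pow, one_mul] at h4; exact h4
      · rw [ho.neg_one_pow, neg_one_mul] at h4
        exact Sc_neg_iff.1 h4
  · change Sc ([x, y, (x * y)⁻¹].prod)
    left
    simp

lemma tsu_gn (x y : SL K) (h : Subgroup.closure ({x, y, -1} : Set (SL K)) ≠ ⊤) :
    gn (tsu_map (x, y)) ≠ ⊤ := by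
  intro htop
  apply h
  rw [eq_top_iff, ← htop, gn_le_iff]
  have hx : x ∈ Subgroup.closure ({x, y, -1} : Set (SL K)) := Subgroup.subset_closure (by simp)
  have hy : y ∈ Subgroup.closure ({x, y, -1} : Set (SL K)) := Subgroup.subset_closure (by simp)
  refine ⟨?_, ?_, Subgroup.subset_closure (by simp)⟩
  · intro z hz
    simp only [tsu_map, List.mem_cons, List.not_mem_nil, or_false] at hz
    rcases hz with rfl | rfl | rfl
    · exact hx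
    · exact hy
    · exact Subgroup.inv_mem _ (Subgroup.mul_mem _ hx hy)
  · intro j
    exact Subgroup.one_mem _

/-- counting pairs with given traces -/
lemma tsu_count [Finite K] (hTWO : Stmt_TWO) (hTRC : Stmt_TRC) (τ1 τ2 t : K)
    (hk : kap τ1 τ2 t ≠ 2) (hq : 10 ≤ Nat.card K) :
    Nat.card K ^ 3 ≤ 4 * Set.ncard {w : SL K × SL K | w.1 ∈ {x : SL K | ¬ Sc x ∧ tr x = τ1} ∧
      w.2 ∈ {x : SL K | tr x = τ2 ∧ tr (w.1 * x) = t}} := by
  have h1 := (hTRC K 1 τ1 one_ne_zero).2.2.1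
  have h2 : Set.ncard {x : SL K | tr x = τ1} ≤ Set.ncard {x : SL K | ¬ Sc x ∧ tr x = τ1} + 2 := by
    have hsub : {x : SL K | tr x = τ1} ⊆ {x : SL K | ¬ Sc x ∧ tr x = τ1} ∪ {x : SL K | Sc x} := by
      intro x hx
      by_cases hs : Sc x
      · right; exact hs
      · left; exact ⟨hs, hx⟩
    exact (Set.ncard_le_ncard hsub (Set.toFinite _)).trans ((Set.ncard_union_le _ _).trans
      (Nat.add_le_add le_rfl ncard_Sc_le))
  have h3 := le_ncard_prod (s := {x : SL K | ¬ Sc x ∧ tr x = τ1}) (Set.toFinite _)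
    (fun a => {x : SL K | tr x = τ2 ∧ tr (a * x) = t}) (fun _ _ => Set.toFinite _)
    (Nat.card K - 3) (by
      intro a ha
      have := (hTWO K a ha.1 τ2 t).2 (by rw [ha.2]; exact hk)
      omega)
  refine le_trans ?_ (Nat.mul_le_mul_left 4 h3)
  obtain ⟨q, hq'⟩ : ∃ q, Nat.card K = q + 10 := ⟨Nat.card K - 10, by omega⟩
  rw [hq'] at h1 ⊢
  have h4 : q + 10 - 3 = q + 7 := by omega
  rw [h4]
  have h5 : (q + 10) ^ 2 ≤ Set.ncard {x : SL K | ¬ Sc x ∧ tr x = τ1} + (q + 12) := by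
    omega
  generalize Set.ncard {x : SL K | ¬ Sc x ∧ tr x = τ1} = a at h5
  have h6 : q ^ 2 + 19 * q + 88 ≤ a := by nlinarith
  calc (q + 10) ^ 3 ≤ 4 * ((q ^ 2 + 19 * q + 88) * (q + 7)) := by
        ring_nf
        nlinarith [sq_nonneg q, Nat.zero_le (q ^ 3), Nat.zero_le (q ^ 2), Nat.zero_le q]
    _ ≤ 4 * (a * (q + 7)) := Nat.mul_le_mul_left 4 (Nat.mul_le_mul_right _ h6)

end

theorem stmt_TSU (hKAP : Stmt_KAP) (hSIG : Stmt_SIG) (hTWO : Stmt_TWO) (hTRC : Stmt_TRC)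
    (hCNJ : Stmt_CNJ) : Stmt_TSU := by
  refine ⟨4, 10, ?_⟩
  intro K _ _ m1 m2 m3 hq hyp n12 n13 n23 hex
  obtain ⟨p1, p2, p3, -, -, -, hc⟩ := hyp
  obtain ⟨τ1, h1, τ2, h2, τ3, h3, L, l1, l2, l3, l4, hL⟩ := hex
  have hsign : ∃ t : K, (t = τ3 ∨ t = -τ3) ∧ kap τ1 τ2 t ≠ 2 := by
    rcases hKAP K m1 m2 m3 p1 p2 p3 hc n12 n13 n23 τ1 h1 τ2 h2 τ3 h3 with h | h
    · exact ⟨τ3, Or.inl rfl, h⟩
    · exact ⟨-τ3, Or.inr rfl, h⟩
  obtain ⟨t, ht, hk⟩ := hsign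
  refine (tsu_count hTWO hTRC τ1 τ2 t hk hq).trans (Nat.mul_le_mul_left 4 ?_)
  refine Set.ncard_le_ncard_of_injOn tsu_map ?_ (tsu_map_inj.injOn) (Bad_finite _ _)
  rintro ⟨x, y⟩ ⟨⟨hx, hx1⟩, hy1, hxy⟩
  have hx1' : tr x = τ1 := hx1
  have hy1' : tr y = τ2 := hy1
  have hxy' : tr (x * y) = t := hxy
  refine ⟨tsu_mem hCNJ h1 h2 h3 hx1' hy1' (by rw [hxy']; exact ht), ?_⟩
  apply tsu_gn
  apply hSIG K x y ?_ L hL
  · rw [hx1']; exact l1
  · rw [hy1']; exact l2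
  · rw [hxy']
    rcases ht with rfl | rfl
    · exact l3
    · rw [neg_sq]; exact l3
  · rw [hx1', hy1', hxy']
    rcases ht with rfl | rfl
    · exact l4
    · rw [mul_neg]; exact L.neg_mem l4
  · unfold kp
    rw [hx1', hy1', hxy']
    exact hk

end Pool.FG.helper63
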